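import Mathlib
import Pool.Agent.Run7.h481.RG.Iface

set_option autoImplicit false

namespace Run7.h44.RG

open MeasureTheory ProbabilityTheory Set Filter
open scoped NNReal ENNReal Topology

noncomputable section

/-- one-dimensional density -/
def r1 (h : ℝ≥0) (a t : ℝ) : ℝ := Real.exp (a * t / h - a ^ 2 / (2 * h))

lemma r1_pos (h : ℝ≥0) (a t : ℝ) : 0 < r1 h a t := Real.exp_pos _

@[fun_prop]
lemma measurable_r1 {α : Type*} [MeasurableSpace α] (h : ℝ≥0) {f g : α → ℝ} (hf : Measurable f)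
    (hg : Measurable g) : Measurable fun x => r1 h (f x) (g x) := by
  unfold r1
  fun_prop

lemma gaussianReal_eq_withDensity (h : ℝ≥0) (hh : 0 < h) (a : ℝ) :
    gaussianReal a h = (gaussianReal 0 h).withDensity (fun t => ENNReal.ofReal (r1 h a t)) := by
  have hne : h ≠ 0 := hh.ne'
  have hne' : (h : ℝ) ≠ 0 := by exact_mod_cast hne
  rw [gaussianReal_of_var_ne_zero _ hne, gaussianReal_of_var_ne_zero _ hne,
    ← withDensity_mul _ (measurable_gaussianPDF 0 h) (by fun_prop)]
  congr 1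
  ext t
  simp only [Pi.mul_apply, gaussianPDF_def, gaussianPDFReal_def, r1]
  rw [← ENNReal.ofReal_mul (by positivity), mul_assoc (√(2 * Real.pi * (h : ℝ)))⁻¹,
    ← Real.exp_add]
  congr 3
  field_simp
  ring

lemma lintegral_pi_prod {N : ℕ} (μ : Fin N → Measure ℝ) [∀ i, IsProbabilityMeasure (μ i)]
    (f : Fin N → ℝ → ℝ≥0∞) (hf : ∀ i, Measurable (f i)) :
    ∫⁻ x, ∏ i, f i (x i) ∂(Measure.pi μ) = ∏ i, ∫⁻ t, f i t ∂(μ i) := by
  have hind : iIndepFun (fun i (x : Fin N → ℝ) => f i (x i)) (Measure.pi μ) :=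
    iIndepFun_pi (fun i => (hf i).aemeasurable)
  rw [lintegral_prod_eq_prod_lintegral_of_indepFun Finset.univ _ hind (fun i => by fun_prop)]
  refine Finset.prod_congr rfl fun i _ => ?_
  exact (measurePreserving_eval μ i).lintegral_comp (hf i)

lemma pi_shift (N : ℕ) (h : ℝ≥0) (hh : 0 < h) (a : Fin N → ℝ) :
    (Measure.pi fun _ : Fin N => gaussianReal 0 h).map (fun x => x + a) =
      (Measure.pi fun _ : Fin N => gaussianReal 0 h).withDensity
        (fun x => ∏ k, ENNReal.ofReal (r1 h (a k) (x k))) := by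
  have h1 : (Measure.pi fun _ : Fin N => gaussianReal 0 h).map (fun x => x + a) =
      Measure.pi (fun k => gaussianReal (a k) h) := by
    have hmp : ∀ k : Fin N, MeasurePreserving (fun t : ℝ => t + a k) (gaussianReal 0 h)
        (gaussianReal (a k) h) := fun k =>
      ⟨by fun_prop, by rw [gaussianReal_map_add_const]; simp⟩
    exact (measurePreserving_pi _ _ hmp).map_eq
  rw [h1]
  refine Measure.pi_eq fun s hs => ?_
  rw [withDensity_apply _ (MeasurableSet.univ_pi hs), ← lintegral_indicator (MeasurableSet.univ_pi hs)]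
  have h2 : (univ.pi s).indicator (fun x : Fin N → ℝ => ∏ k, ENNReal.ofReal (r1 h (a k) (x k))) =
      fun x => ∏ k, (s k).indicator (fun t => ENNReal.ofReal (r1 h (a k) t)) (x k) := by
    ext x
    by_cases hx : x ∈ univ.pi s
    · rw [indicator_of_mem hx]
      refine Finset.prod_congr rfl fun k _ => ?_
      rw [indicator_of_mem (hx k (mem_univ k))]
    · rw [indicator_of_notMem hx]
      simp only [mem_univ_pi, not_forall] at hx
      obtain ⟨k, hk⟩ := hx
      exact (Finset.prod_eq_zero (Finset.mem_univ k) (indicator_of_notMem hk _)).symm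
  rw [h2, lintegral_pi_prod _ _ (fun k => Measurable.indicator (by fun_prop) (hs k))]
  refine Finset.prod_congr rfl fun k _ => ?_
  rw [lintegral_indicator (hs k), gaussianReal_eq_withDensity h hh (a k),
    withDensity_apply _ (hs k)]

/-- the `N`-dimensional Gaussian measure -/
abbrev gam (N : ℕ) (h : ℝ≥0) : Measure (Fin N → ℝ) := Measure.pi fun _ : Fin N => gaussianReal 0 h

/-- the density of the shift -/
def R {N : ℕ} (h : ℝ≥0) (a x : Fin N → ℝ) : ℝ≥0∞ := ∏ k, ENNReal.ofReal (r1 h (a k) (x k))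

@[fun_prop]
lemma measurable_R {α : Type*} [MeasurableSpace α] {N : ℕ} (h : ℝ≥0) {f g : α → Fin N → ℝ}
    (hf : Measurable f) (hg : Measurable g) : Measurable fun x => R h (f x) (g x) := by
  unfold R
  fun_prop

lemma lintegral_shift (N : ℕ) (h : ℝ≥0) (hh : 0 < h) (a : Fin N → ℝ) (f : (Fin N → ℝ) → ℝ≥0∞)
    (hf : Measurable f) :
    ∫⁻ x, f (x + a) ∂(gam N h) = ∫⁻ x, R h a x * f x ∂(gam N h) := by
  have h1 : ∫⁻ x, f (x + a) ∂(gam N h) = ∫⁻ x, f x ∂((gam N h).map (fun x => x + a)) := by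
    rw [lintegral_map hf (by fun_prop)]
  rw [h1, pi_shift N h hh a, lintegral_withDensity_eq_lintegral_mul _ (by fun_prop) hf]
  rfl

lemma lintegral_R (N : ℕ) (h : ℝ≥0) (hh : 0 < h) (a : Fin N → ℝ) :
    ∫⁻ x, R h a x ∂(gam N h) = 1 := by
  have := lintegral_shift N h hh a (fun _ => 1) measurable_const
  simp only [lintegral_const, measure_univ, mul_one] at this
  exact this.symm

lemma R_eq {N : ℕ} (h : ℝ≥0) (a x : Fin N → ℝ) :
    R h a x = ENNReal.ofReal (Real.exp ((∑ k, a k * x k) / h - (∑ k, (a k) ^ 2) / (2 * h))) := by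
  unfold R r1
  rw [← ENNReal.ofReal_prod_of_nonneg (fun k _ => (Real.exp_pos _).le), ← Real.exp_sum,
    Finset.sum_sub_distrib, Finset.sum_div, Finset.sum_div]

lemma R_add {N : ℕ} (h : ℝ≥0) (a b x : Fin N → ℝ) :
    R h a (x + b) = ENNReal.ofReal (Real.exp ((∑ k, b k * a k) / h)) * R h a x := by
  rw [R_eq, R_eq, ← ENNReal.ofReal_mul (Real.exp_pos _).le, ← Real.exp_add]
  congr 2
  have : ∑ k, a k * (x + b) k = ∑ k, b k * a k + ∑ k, a k * x k := by
    rw [← Finset.sum_add_distrib]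
    exact Finset.sum_congr rfl fun k _ => by simp only [Pi.add_apply]; ring
  rw [this]
  ring

lemma lintegral_resample (N : ℕ) (h : ℝ≥0) (k : Fin N) (f : (Fin N → ℝ) → ℝ≥0∞)
    (hf : Measurable f) :
    ∫⁻ x, f x ∂(gam N h) = ∫⁻ x, ∫⁻ t, f (Function.update x k t) ∂(gaussianReal 0 h) ∂(gam N h) := by
  have hm : Measurable fun x : Fin N → ℝ => ∫⁻ t, f (Function.update x k t) ∂(gaussianReal 0 h) := by
    have : (fun x : Fin N → ℝ => ∫⁻ t, f (Function.update x k t) ∂(gaussianReal 0 h)) =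
      ∫⋯∫⁻_{k}, f ∂(fun _ : Fin N => gaussianReal 0 h) := by
      rw [lmarginal_singleton]
    rw [this]
    exact hf.lmarginal _
  refine lintegral_eq_of_lmarginal_eq {k} hf hm ?_
  rw [lmarginal_singleton, lmarginal_singleton]
  ext x
  simp

/-- the exponential factors -/
def ef {N : ℕ} (h : ℝ≥0) (c : ℝ) (g : Fin N → (Fin N → ℝ) → ℝ) (k : Fin N) (x : Fin N → ℝ) : ℝ :=
  c * (g k x * x k) - c ^ 2 * h * (g k x) ^ 2 / 2

lemma lintegral_exp_gauss (h : ℝ≥0) (s : ℝ) :
    ∫⁻ t, ENNReal.ofReal (Real.exp (s * t)) ∂(gaussianReal 0 h) =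
      ENNReal.ofReal (Real.exp (h * s ^ 2 / 2)) := by
  rw [← ofReal_integral_eq_lintegral_ofReal (integrable_exp_mul_gaussianReal s)
    (Eventually.of_forall fun t => (Real.exp_pos _).le)]
  have := congrFun (mgf_id_gaussianReal (μ := 0) (v := h)) s
  simp only [mgf, id, zero_mul, zero_add] at this
  rw [this]

lemma lintegral_exp_mart (N : ℕ) (h : ℝ≥0) (c : ℝ) (g : Fin N → (Fin N → ℝ) → ℝ)
    (hg : ∀ k, Measurable (g k)) (hdep : ∀ k x y, (∀ j < k, x j = y j) → g k x = g k y)
    (m : ℕ) (hm : m ≤ N) :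
    ∫⁻ x, ∏ k ∈ Finset.univ.filter (fun k : Fin N => (k : ℕ) < m),
      ENNReal.ofReal (Real.exp (ef h c g k x)) ∂(gam N h) = 1 := by
  have hef : ∀ k, Measurable (ef h c g k) := fun k => by
    unfold ef
    have := hg k
    fun_prop
  induction m with
  | zero => simp
  | succ m ih =>
    have hmN : m < N := hm
    have hS : Finset.univ.filter (fun k : Fin N => (k : ℕ) < m + 1) =
        insert (⟨m, hmN⟩ : Fin N) (Finset.univ.filter (fun k : Fin N => (k : ℕ) < m)) := by
      ext k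
      simp only [Finset.mem_filter, Finset.mem_univ, true_and, Finset.mem_insert, Fin.ext_iff]
      omega
    have hnot : (⟨m, hmN⟩ : Fin N) ∉ Finset.univ.filter (fun k : Fin N => (k : ℕ) < m) := by
      simp
    rw [hS]
    simp_rw [Finset.prod_insert hnot]
    rw [lintegral_resample N h ⟨m, hmN⟩ _ (by
      refine Measurable.mul ?_ (Finset.measurable_prod _ fun k _ => ?_)
      · have := hef ⟨m, hmN⟩
        fun_prop
      · have := hef k
        fun_prop)]
    rw [← ih (by omega)]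
    refine lintegral_congr fun x => ?_
    have h1 : ∀ t, ENNReal.ofReal (Real.exp (ef h c g ⟨m, hmN⟩ (Function.update x ⟨m, hmN⟩ t))) =
        ENNReal.ofReal (Real.exp (-(c ^ 2 * h * (g ⟨m, hmN⟩ x) ^ 2 / 2))) *
          ENNReal.ofReal (Real.exp ((c * g ⟨m, hmN⟩ x) * t)) := by
      intro t
      rw [← ENNReal.ofReal_mul (Real.exp_pos _).le, ← Real.exp_add]
      congr 2
      unfold ef
      rw [hdep ⟨m, hmN⟩ (Function.update x ⟨m, hmN⟩ t) x (fun j hj => by
        rw [Function.update_of_ne (ne_of_lt hj)]), Function.update_self]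
      ring
    have h2 : ∀ t, ∏ k ∈ Finset.univ.filter (fun k : Fin N => (k : ℕ) < m),
        ENNReal.ofReal (Real.exp (ef h c g k (Function.update x ⟨m, hmN⟩ t))) =
        ∏ k ∈ Finset.univ.filter (fun k : Fin N => (k : ℕ) < m),
        ENNReal.ofReal (Real.exp (ef h c g k x)) := by
      intro t
      refine Finset.prod_congr rfl fun k hk => ?_
      have hk' : (k : ℕ) < m := by simpa using hk
      have hne : k ≠ ⟨m, hmN⟩ := fun e => by
        rw [e] at hk'
        exact lt_irrefl _ hk'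
      unfold ef
      rw [hdep k (Function.update x ⟨m, hmN⟩ t) x (fun j hj => by
        rw [Function.update_of_ne]
        intro e
        rw [e] at hj
        exact absurd (Fin.lt_def.1 hj) (by simpa using hk'.le)), Function.update_of_ne hne]
    simp_rw [h1, h2]
    rw [lintegral_mul_const _ (by fun_prop), lintegral_const_mul _ (by fun_prop),
      lintegral_exp_gauss, ← ENNReal.ofReal_mul (Real.exp_pos _).le, ← Real.exp_add]
    have h3 : -(c ^ 2 * (h : ℝ) * (g ⟨m, hmN⟩ x) ^ 2 / 2) +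
        h * (c * g ⟨m, hmN⟩ x) ^ 2 / 2 = 0 := by ring
    rw [h3, Real.exp_zero, ENNReal.ofReal_one, one_mul]

/-- reflection of one coordinate -/
lemma mp_refl (N : ℕ) (h : ℝ≥0) (k : Fin N) :
    MeasurePreserving (fun (x : Fin N → ℝ) => Function.update x k (-(x k))) (gam N h)
      (gam N h) := by
  have hmp : ∀ j : Fin N, MeasurePreserving (fun t : ℝ => if j = k then -t else t)
      (gaussianReal 0 h) (gaussianReal 0 h) := by
    intro j
    by_cases hj : j = k
    · simp only [hj, if_true]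
      exact ⟨by fun_prop, by rw [gaussianReal_map_neg]; simp⟩
    · simp only [hj, if_false]
      exact MeasurePreserving.id _
  have := measurePreserving_pi (fun _ : Fin N => gaussianReal 0 h)
    (fun _ : Fin N => gaussianReal 0 h) hmp
  convert this using 2 with x
  ext j
  by_cases hj : j = k
  · subst hj
    simp
  · simp [hj]

lemma integral_mul_coord (N : ℕ) (h : ℝ≥0) (k : Fin N) (G : (Fin N → ℝ) → ℝ)
    (hG : ∀ x t, G (Function.update x k t) = G x) :
    ∫ x, G x * x k ∂(gam N h) = 0 := by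
  have h0 : MeasurableEmbedding (fun (x : Fin N → ℝ) => Function.update x k (-(x k))) := by
    have hinv : Function.Involutive (fun (x : Fin N → ℝ) => Function.update x k (-(x k))) := by
      intro x
      ext j
      by_cases hj : j = k
      · subst hj
        simp
      · simp [hj]
    exact (MeasurableEquiv.ofInvolutive _ hinv (mp_refl N h k).measurable).measurableEmbedding
  have h1 := (mp_refl N h k).integral_comp h0 (fun x => G x * x k)
  simp only [hG, Function.update_self, mul_neg, integral_neg] at h1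
  linarith

section main

variable {N : ℕ} {h : ℝ≥0} {Θ : Type} [MeasurableSpace Θ] {π : Measure Θ}
  [IsProbabilityMeasure π] {a : Θ → Fin N → ℝ}

/-- the density of the mixture -/
def Zf (h : ℝ≥0) (π : Measure Θ) (a : Θ → Fin N → ℝ) (x : Fin N → ℝ) : ℝ≥0∞ :=
  ∫⁻ v, R h (a v) x ∂π

omit [IsProbabilityMeasure π] in
lemma measurable_Zf [SFinite π] (ha : Measurable a) : Measurable (Zf h π a) := by
  have : Measurable fun p : (Fin N → ℝ) × Θ => R h (a p.2) p.1 := by fun_prop
  exact this.lintegral_prod_right'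

lemma R_pos (b x : Fin N → ℝ) : R h b x ≠ 0 := by
  rw [R_eq]
  exact (ENNReal.ofReal_pos.2 (Real.exp_pos _)).ne'

lemma Zf_ne_zero (ha : Measurable a) (x : Fin N → ℝ) : Zf h π a x ≠ 0 := by
  intro h0
  have h1 := (lintegral_eq_zero_iff (by fun_prop : Measurable fun v => R h (a v) x)).1 h0
  have h2 : ∀ᵐ v ∂π, False := by
    filter_upwards [h1] with v hv
    exact R_pos (a v) x hv
  obtain ⟨v, hv⟩ := h2.exists
  exact hv

lemma Zf_ne_top (hab : ∀ u k, |a u k| ≤ 1) (x : Fin N → ℝ) : Zf h π a x ≠ ∞ := by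
  have hle : ∀ v, R h (a v) x ≤ ENNReal.ofReal (Real.exp ((∑ k, |x k|) / h)) := by
    intro v
    rw [R_eq]
    refine ENNReal.ofReal_le_ofReal (Real.exp_le_exp.2 ?_)
    have h1 : ∑ k, a v k * x k ≤ ∑ k, |x k| := Finset.sum_le_sum fun k _ => by
      calc a v k * x k ≤ |a v k * x k| := le_abs_self _
        _ = |a v k| * |x k| := abs_mul _ _
        _ ≤ 1 * |x k| := by gcongr; exact hab v k
        _ = |x k| := one_mul _
    have h2 : 0 ≤ (∑ k, (a v k) ^ 2) / (2 * (h : ℝ)) := by positivity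
    have h3 : (∑ k, a v k * x k) / (h : ℝ) ≤ (∑ k, |x k|) / h := by gcongr
    linarith
  have h5 : Zf h π a x ≤ ENNReal.ofReal (Real.exp ((∑ k, |x k|) / h)) := by
    refine (lintegral_mono hle).trans_eq ?_
    simp
  exact ne_top_of_le_ne_top ENNReal.ofReal_ne_top h5

/-- the exponent -/
def ell (h : ℝ≥0) (c : ℝ) (g : Fin N → (Fin N → ℝ) → ℝ) (x : Fin N → ℝ) : ℝ :=
  ∑ k, ef h c g k x

/-- the likelihood ratio -/
def Ff (h : ℝ≥0) (π : Measure Θ) (a : Θ → Fin N → ℝ) (c : ℝ) (g : Fin N → (Fin N → ℝ) → ℝ)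
    (x : Fin N → ℝ) : ℝ≥0∞ :=
  ENNReal.ofReal (Real.exp (ell h c g x)) / Zf h π a x

lemma measurable_ell (c : ℝ) {g : Fin N → (Fin N → ℝ) → ℝ} (hg : ∀ k, Measurable (g k)) :
    Measurable (ell h c g) := by
  unfold ell ef
  refine Finset.measurable_sum _ fun k _ => ?_
  have := hg k
  fun_prop

omit [IsProbabilityMeasure π] in
lemma measurable_Ff [SFinite π] (c : ℝ) {g : Fin N → (Fin N → ℝ) → ℝ}
    (hg : ∀ k, Measurable (g k)) (ha : Measurable a) : Measurable (Ff h π a c g) := by
  have h1 := measurable_Zf (h := h) (π := π) ha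
  have h2 := measurable_ell (h := h) c hg
  unfold Ff
  fun_prop

lemma lintegral_exp_ell (c : ℝ) {g : Fin N → (Fin N → ℝ) → ℝ} (hg : ∀ k, Measurable (g k))
    (hdep : ∀ k x y, (∀ j < k, x j = y j) → g k x = g k y) :
    ∫⁻ x, ENNReal.ofReal (Real.exp (ell h c g x)) ∂(gam N h) = 1 := by
  rw [← lintegral_exp_mart N h c g hg hdep N le_rfl]
  refine lintegral_congr fun x => ?_
  have : Finset.univ.filter (fun k : Fin N => (k : ℕ) < N) = Finset.univ := by
    ext k
    simp
  rw [this, ell, Real.exp_sum, ENNReal.ofReal_prod_of_nonneg (fun k _ => (Real.exp_pos _).le)]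

lemma lintegral_F (hh : 0 < h) (c : ℝ) {g : Fin N → (Fin N → ℝ) → ℝ}
    (hg : ∀ k, Measurable (g k))
    (hdep : ∀ k x y, (∀ j < k, x j = y j) → g k x = g k y) (ha : Measurable a)
    (hab : ∀ u k, |a u k| ≤ 1) :
    ∫⁻ p, Ff h π a c g (p.2 + a p.1) ∂(π.prod (gam N h)) = 1 := by
  have hF := measurable_Ff (h := h) (π := π) c hg ha
  rw [lintegral_prod _ (by fun_prop)]
  have h1 : ∀ u, ∫⁻ x, Ff h π a c g (x + a u) ∂(gam N h) =
      ∫⁻ x, R h (a u) x * Ff h π a c g x ∂(gam N h) := fun u =>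
    lintegral_shift N h hh (a u) _ hF
  simp only [h1]
  rw [lintegral_lintegral_swap (by fun_prop)]
  rw [← lintegral_exp_ell (h := h) c hg hdep]
  refine lintegral_congr fun x => ?_
  rw [lintegral_mul_const _ (by fun_prop)]
  exact ENNReal.mul_div_cancel (Zf_ne_zero ha x) (Zf_ne_top hab x)

lemma lintegral_Z (hh : 0 < h) (ha : Measurable a) :
    ∫⁻ p, Zf h π a (p.2 + a p.1) ∂(π.prod (gam N h)) =
      ∫⁻ u, ∫⁻ v, ENNReal.ofReal (Real.exp ((∑ k, a u k * a v k) / h)) ∂π ∂π := by
  have hZ := measurable_Zf (h := h) (π := π) ha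
  rw [lintegral_prod _ (by fun_prop)]
  refine lintegral_congr fun u => ?_
  unfold Zf
  rw [lintegral_lintegral_swap (by fun_prop)]
  refine lintegral_congr fun v => ?_
  simp only [R_add]
  rw [lintegral_const_mul _ (by fun_prop), lintegral_R N h hh, mul_one]

lemma pointwise (c : ℝ) (g : Fin N → (Fin N → ℝ) → ℝ) (ha : Measurable a)
    (hab : ∀ u k, |a u k| ≤ 1) (y : Fin N → ℝ) :
    ell h c g y ≤ (Ff h π a c g y).toReal - 1 + ((Zf h π a y).toReal - 1) := by
  have hz : 0 < (Zf h π a y).toReal := ENNReal.toReal_pos (Zf_ne_zero ha y) (Zf_ne_top hab y)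
  have h1 : (Ff h π a c g y).toReal = Real.exp (ell h c g y) / (Zf h π a y).toReal := by
    unfold Ff
    rw [ENNReal.toReal_div, ENNReal.toReal_ofReal (Real.exp_pos _).le]
  rw [h1]
  have h2 := Real.log_le_sub_one_of_pos (div_pos (Real.exp_pos (ell h c g y)) hz)
  have h3 := Real.log_le_sub_one_of_pos hz
  rw [Real.log_div (Real.exp_pos _).ne' hz.ne', Real.log_exp] at h2
  linarith

end main

theorem t_DVF : H481.RG.S_DVF := by
  intro N h hh Θ _ π _ a ha hab g hg hg01 hdep c
  set P := π.prod (gam N h) with hP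
  have hF := measurable_Ff (h := h) (π := π) c hg ha
  have hZ := measurable_Zf (h := h) (π := π) ha
  have hak : ∀ k, Measurable fun u => a u k := fun k => by fun_prop
  have hshift : Measurable fun p : Θ × (Fin N → ℝ) => p.2 + a p.1 := by fun_prop
  -- integrability
  have hcoord : ∀ k : Fin N, Integrable (fun x : Fin N → ℝ => x k) (gam N h) := by
    intro k
    have h1 : Integrable (fun t : ℝ => t) (gaussianReal 0 h) := by
      have := memLp_id_gaussianReal (μ := 0) (v := h) 1
      exact (memLp_one_iff_integrable).1 (by exact_mod_cast this)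
    exact (measurePreserving_eval (fun _ : Fin N => gaussianReal 0 h) k).integrable_comp_of_integrable h1
  have hgb : ∀ k y, ‖g k y‖ ≤ 1 := fun k y => by
    rw [Real.norm_eq_abs, abs_of_nonneg (hg01 k y).1]
    exact (hg01 k y).2
  have hgm : ∀ k, Measurable fun p : Θ × (Fin N → ℝ) => g k (p.2 + a p.1) := fun k =>
    (hg k).comp hshift
  have hIg : ∀ k, Integrable (fun p : Θ × (Fin N → ℝ) => g k (p.2 + a p.1) ^ 2) P := fun k => by
    refine Integrable.of_bound ((hgm k).pow_const 2).aestronglyMeasurable 1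
      (Eventually.of_forall fun p => ?_)
    rw [norm_pow]
    exact pow_le_one₀ (norm_nonneg _) (hgb _ _)
  have hIa : ∀ k, Integrable (fun p : Θ × (Fin N → ℝ) => g k (p.2 + a p.1) * a p.1 k) P :=
    fun k => by
    refine Integrable.of_bound ((hgm k).mul ((hak k).comp measurable_fst)).aestronglyMeasurable 1
      (Eventually.of_forall fun p => ?_)
    rw [norm_mul]
    exact mul_le_one₀ (hgb _ _) (norm_nonneg _) (hab _ _)
  have hIx : ∀ k, Integrable (fun p : Θ × (Fin N → ℝ) => g k (p.2 + a p.1) * p.2 k) P :=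
    fun k => by
    have h1 : Integrable (fun p : Θ × (Fin N → ℝ) => p.2 k) P := (hcoord k).comp_snd π
    exact h1.bdd_mul (hgm k).aestronglyMeasurable (Eventually.of_forall fun p => hgb _ _)
  -- the zero mean terms
  have hzero : ∀ k, ∫ p, g k (p.2 + a p.1) * p.2 k ∂P = 0 := by
    intro k
    rw [hP, integral_prod _ (hIx k)]
    have : ∀ u, ∫ x, g k (x + a u) * x k ∂(gam N h) = 0 := fun u => by
      refine integral_mul_coord N h k (fun x => g k (x + a u)) fun x t => ?_
      refine hdep k _ _ fun j hj => ?_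
      simp only [Pi.add_apply]
      rw [Function.update_of_ne (ne_of_lt hj)]
    simp [this]
  have hA : ∫ u, ∫ x, ∑ k, g k (x + a u) * a u k ∂(gam N h) ∂π =
      ∫ p, ∑ k, g k (p.2 + a p.1) * a p.1 k ∂P := by
    rw [hP, integral_prod _ (integrable_finsetSum _ fun k _ => hIa k)]
  have hB : ∫ u, ∫ x, ∑ k, (g k (x + a u)) ^ 2 ∂(gam N h) ∂π =
      ∫ p, ∑ k, (g k (p.2 + a p.1)) ^ 2 ∂P := by
    rw [hP, integral_prod _ (integrable_finsetSum _ fun k _ => hIg k)]
  have hIell : Integrable (fun p : Θ × (Fin N → ℝ) => ell h c g (p.2 + a p.1)) P ∧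
      ∫ p, ell h c g (p.2 + a p.1) ∂P = c * ∫ p, ∑ k, g k (p.2 + a p.1) * a p.1 k ∂P -
        c ^ 2 / 2 * h * ∫ p, ∑ k, (g k (p.2 + a p.1)) ^ 2 ∂P := by
    have he : ∀ p : Θ × (Fin N → ℝ), ell h c g (p.2 + a p.1) =
        ∑ k, (c * (g k (p.2 + a p.1) * p.2 k) + c * (g k (p.2 + a p.1) * a p.1 k) -
          c ^ 2 / 2 * h * (g k (p.2 + a p.1)) ^ 2) := by
      intro p
      unfold ell ef
      refine Finset.sum_congr rfl fun k _ => ?_
      simp only [Pi.add_apply]
      ring
    have hik : ∀ k, Integrable (fun p : Θ × (Fin N → ℝ) =>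
        (c * (g k (p.2 + a p.1) * p.2 k) + c * (g k (p.2 + a p.1) * a p.1 k) -
          c ^ 2 / 2 * h * (g k (p.2 + a p.1)) ^ 2)) P := fun k =>
      (((hIx k).const_mul c).add ((hIa k).const_mul c)).sub ((hIg k).const_mul _)
    simp only [he]
    refine ⟨integrable_finsetSum _ fun k _ => hik k, ?_⟩
    rw [integral_finsetSum _ fun k _ => hik k, integral_finsetSum _ fun k _ => hIa k,
      integral_finsetSum _ fun k _ => hIg k, Finset.mul_sum, Finset.mul_sum,
      ← Finset.sum_sub_distrib]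
    refine Finset.sum_congr rfl fun k _ => ?_
    have e1 : ∫ p, (c * (g k (p.2 + a p.1) * p.2 k) + c * (g k (p.2 + a p.1) * a p.1 k) -
          c ^ 2 / 2 * h * (g k (p.2 + a p.1)) ^ 2) ∂P =
        ∫ p, (c * (g k (p.2 + a p.1) * p.2 k) + c * (g k (p.2 + a p.1) * a p.1 k)) ∂P -
        ∫ p, c ^ 2 / 2 * h * (g k (p.2 + a p.1)) ^ 2 ∂P :=
      integral_sub (((hIx k).const_mul c).add ((hIa k).const_mul c)) ((hIg k).const_mul _)
    have e2 : ∫ p, (c * (g k (p.2 + a p.1) * p.2 k) + c * (g k (p.2 + a p.1) * a p.1 k)) ∂P =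
        ∫ p, c * (g k (p.2 + a p.1) * p.2 k) ∂P + ∫ p, c * (g k (p.2 + a p.1) * a p.1 k) ∂P :=
      integral_add ((hIx k).const_mul c) ((hIa k).const_mul c)
    rw [e1, e2, integral_const_mul, integral_const_mul, integral_const_mul, hzero k]
    ring
  -- the two likelihood terms
  have hFint : Integrable (fun p : Θ × (Fin N → ℝ) => (Ff h π a c g (p.2 + a p.1)).toReal) P ∧
      ∫ p, (Ff h π a c g (p.2 + a p.1)).toReal ∂P = 1 := by
    have h1 := lintegral_F (π := π) hh c hg hdep ha hab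
    have hm : AEMeasurable (fun p : Θ × (Fin N → ℝ) => Ff h π a c g (p.2 + a p.1)) P :=
      (hF.comp hshift).aemeasurable
    have hne : ∫⁻ p, Ff h π a c g (p.2 + a p.1) ∂P ≠ ∞ := by
      rw [h1]
      exact ENNReal.one_ne_top
    refine ⟨integrable_toReal_of_lintegral_ne_top hm hne, ?_⟩
    rw [integral_toReal hm (ae_lt_top' hm hne), h1, ENNReal.toReal_one]
  have hexpb : ∀ u v, Real.exp ((∑ k, a u k * a v k) / h) ≤ Real.exp (N / h) := fun u v => by
    refine Real.exp_le_exp.2 ?_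
    have h1 : ∑ k, a u k * a v k ≤ ∑ _k : Fin N, (1 : ℝ) := Finset.sum_le_sum fun k _ => by
      calc a u k * a v k ≤ |a u k * a v k| := le_abs_self _
        _ = |a u k| * |a v k| := abs_mul _ _
        _ ≤ 1 * 1 := by gcongr <;> [exact hab u k; exact hab v k]
        _ = 1 := one_mul _
    simp only [Finset.sum_const, Finset.card_univ, Fintype.card_fin, nsmul_eq_mul, mul_one] at h1
    gcongr
  have hexpI : ∀ u, Integrable (fun v => Real.exp ((∑ k, a u k * a v k) / h)) π := fun u => by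
    refine Integrable.of_bound (by fun_prop) (Real.exp (N / h)) (Eventually.of_forall fun v => ?_)
    rw [Real.norm_eq_abs, abs_of_pos (Real.exp_pos _)]
    exact hexpb u v
  have hdouble : ∫⁻ u, ∫⁻ v, ENNReal.ofReal (Real.exp ((∑ k, a u k * a v k) / h)) ∂π ∂π =
      ENNReal.ofReal (∫ u, ∫ v, Real.exp ((∑ k, a u k * a v k) / h) ∂π ∂π) := by
    have h1 : ∀ u, ∫⁻ v, ENNReal.ofReal (Real.exp ((∑ k, a u k * a v k) / h)) ∂π =
        ENNReal.ofReal (∫ v, Real.exp ((∑ k, a u k * a v k) / h) ∂π) := fun u =>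
      (ofReal_integral_eq_lintegral_ofReal (hexpI u)
        (Eventually.of_forall fun v => (Real.exp_pos _).le)).symm
    simp only [h1]
    refine (ofReal_integral_eq_lintegral_ofReal ?_
      (Eventually.of_forall fun u => integral_nonneg fun v => (Real.exp_pos _).le)).symm
    refine Integrable.of_bound ?_ (Real.exp (N / h)) (Eventually.of_forall fun u => ?_)
    · have : StronglyMeasurable fun q : Θ × Θ => Real.exp ((∑ k, a q.1 k * a q.2 k) / h) := by
        refine Measurable.stronglyMeasurable ?_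
        fun_prop
      exact this.integral_prod_right'.aestronglyMeasurable
    · rw [Real.norm_eq_abs, abs_of_nonneg (integral_nonneg fun v => (Real.exp_pos _).le)]
      calc ∫ v, Real.exp ((∑ k, a u k * a v k) / h) ∂π ≤ ∫ _v, Real.exp (N / h) ∂π :=
            integral_mono (hexpI u) (integrable_const _) fun v => hexpb u v
        _ = Real.exp (N / h) := by simp
  have hZint : Integrable (fun p : Θ × (Fin N → ℝ) => (Zf h π a (p.2 + a p.1)).toReal) P ∧
      ∫ p, (Zf h π a (p.2 + a p.1)).toReal ∂P =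
        ∫ u, ∫ v, Real.exp ((∑ k, a u k * a v k) / h) ∂π ∂π := by
    have h1 := lintegral_Z (π := π) hh ha
    have hm : AEMeasurable (fun p : Θ × (Fin N → ℝ) => Zf h π a (p.2 + a p.1)) P :=
      (hZ.comp hshift).aemeasurable
    have hne : ∫⁻ p, Zf h π a (p.2 + a p.1) ∂P ≠ ∞ := by
      rw [h1, hdouble]
      exact ENNReal.ofReal_ne_top
    refine ⟨integrable_toReal_of_lintegral_ne_top hm hne, ?_⟩
    rw [integral_toReal hm (ae_lt_top' hm hne), h1, hdouble, ENNReal.toReal_ofReal]
    exact integral_nonneg fun u => integral_nonneg fun v => (Real.exp_pos _).le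
  have hmain : ∫ p, ell h c g (p.2 + a p.1) ∂P ≤
      ∫ p, ((Ff h π a c g (p.2 + a p.1)).toReal - 1 + ((Zf h π a (p.2 + a p.1)).toReal - 1)) ∂P :=
    integral_mono hIell.1
      ((hFint.1.sub (integrable_const 1)).add (hZint.1.sub (integrable_const 1)))
      fun p => pointwise c g ha hab _
  have hsum : ∫ p, ((Ff h π a c g (p.2 + a p.1)).toReal - 1 +
      ((Zf h π a (p.2 + a p.1)).toReal - 1)) ∂P =
      (∫ u, ∫ v, Real.exp ((∑ k, a u k * a v k) / h) ∂π ∂π) - 1 := by
    have e1 : ∫ p, ((Ff h π a c g (p.2 + a p.1)).toReal - 1 +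
      ((Zf h π a (p.2 + a p.1)).toReal - 1)) ∂P =
      ∫ p, ((Ff h π a c g (p.2 + a p.1)).toReal - 1) ∂P +
      ∫ p, ((Zf h π a (p.2 + a p.1)).toReal - 1) ∂P :=
      integral_add (hFint.1.sub (integrable_const 1)) (hZint.1.sub (integrable_const 1))
    rw [e1, integral_sub hFint.1 (integrable_const 1), integral_sub hZint.1 (integrable_const 1),
      hFint.2, hZint.2]
    simp
  rw [hsum, hIell.2, ← hA, ← hB] at hmain
  linarith

end

end Run7.h44.RG
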